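import Mathlib

/-!
# The divisibility poset of the ideal class monoid determines the numerical semigroup

A numerical semigroup is an additive submonoid `S` of `ℕ` with finite complement.
We construct the monoid of ideals of `S`, its ideal class monoid `IdealClassMonoid S`
(the quotient of the monoid of ideals by translation), the divisibility relation
`a ≼ b ↔ ∃ c, b = a + c` on it, and prove that an isomorphism of the posets
`(Cl(S₁), ≼)` and `(Cl(S₂), ≼)` forces `S₁ = S₂`.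
-/

open scoped Pointwise

namespace Pool.Agent.Results.MP_6e7624_al.PosetDetermines

/-- `S`, an additive submonoid of `ℕ`, is a numerical semigroup if its complement in `ℕ`
is finite. -/
def IsNumericalSemigroup (S : AddSubmonoid ℕ) : Prop :=
  ((S : Set ℕ)ᶜ).Finite

/-- The copy of `S` inside `ℤ`. -/
def inInt (S : AddSubmonoid ℕ) : Set ℤ := {z | ∃ n ∈ S, z = (n : ℤ)}

/-- `E ⊆ ℤ` is an ideal of `S`: it is nonempty, `S + E ⊆ E`, and `s + E ⊆ S` for some
`s ∈ S`. -/
def IsIdeal (S : AddSubmonoid ℕ) (E : Set ℤ) : Prop :=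
  E.Nonempty ∧ inInt S + E ⊆ E ∧ ∃ s ∈ S, ({(s : ℤ)} : Set ℤ) + E ⊆ inInt S

/-- The set of ideals of `S`. -/
def IdealMonoid (S : AddSubmonoid ℕ) : Type := {E : Set ℤ // IsIdeal S E}

theorem inInt_add_inInt (S : AddSubmonoid ℕ) : inInt S + inInt S ⊆ inInt S := by
  rintro _ ⟨_, ⟨a, ha, rfl⟩, _, ⟨b, hb, rfl⟩, rfl⟩
  exact ⟨a + b, S.add_mem ha hb, by push_cast; ring⟩

theorem zero_mem_inInt (S : AddSubmonoid ℕ) : (0 : ℤ) ∈ inInt S :=
  ⟨0, S.zero_mem, by simp⟩

theorem isIdeal_inInt (S : AddSubmonoid ℕ) : IsIdeal S (inInt S) :=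
  ⟨⟨0, zero_mem_inInt S⟩, inInt_add_inInt S, 0, S.zero_mem, by simp⟩

theorem IsIdeal.add {S : AddSubmonoid ℕ} {E F : Set ℤ} (hE : IsIdeal S E)
    (hF : IsIdeal S F) : IsIdeal S (E + F) := by
  obtain ⟨hE0, hE1, s, hs, hE2⟩ := hE
  obtain ⟨hF0, hF1, t, ht, hF2⟩ := hF
  refine ⟨hE0.add hF0, ?_, s + t, S.add_mem hs ht, ?_⟩
  · rw [← add_assoc]
    exact Set.add_subset_add_right hE1
  · have h1 : ({((s + t : ℕ) : ℤ)} : Set ℤ) + (E + F)
        = (({(s : ℤ)} : Set ℤ) + E) + (({(t : ℤ)} : Set ℤ) + F) := by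
      rw [add_add_add_comm, Set.singleton_add_singleton]
      push_cast
      rfl
    rw [h1]
    exact (Set.add_subset_add hE2 hF2).trans (inInt_add_inInt S)

theorem inInt_add_ideal {S : AddSubmonoid ℕ} {E : Set ℤ} (hE : IsIdeal S E) :
    inInt S + E = E := by
  apply Set.Subset.antisymm hE.2.1
  intro e he
  exact ⟨0, zero_mem_inInt S, e, he, by simp⟩

/-- The sum of ideals is the Minkowski sum. -/
instance (S : AddSubmonoid ℕ) : Add (IdealMonoid S) where
  add I J := ⟨I.1 + J.1, I.2.add J.2⟩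

/-- The identity of the monoid of ideals is `S` itself. -/
instance (S : AddSubmonoid ℕ) : Zero (IdealMonoid S) where
  zero := ⟨inInt S, isIdeal_inInt S⟩

/-- Ideals of `S` form a commutative monoid under Minkowski sum, with identity `S`. -/
instance (S : AddSubmonoid ℕ) : AddCommMonoid (IdealMonoid S) where
  add_assoc I J K := Subtype.ext (add_assoc I.1 J.1 K.1)
  zero_add I := Subtype.ext (inInt_add_ideal I.2)
  add_zero I := Subtype.ext ((add_comm I.1 (inInt S)).trans (inInt_add_ideal I.2))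
  add_comm I J := Subtype.ext (add_comm I.1 J.1)
  nsmul := nsmulRec

theorem coe_add_ideal (S : AddSubmonoid ℕ) (I J : IdealMonoid S) :
    (I + J).1 = I.1 + J.1 := rfl

/-- The congruence `I ∼ J ↔ I = z + J` for some `z ∈ ℤ`. -/
def translationCon (S : AddSubmonoid ℕ) : AddCon (IdealMonoid S) where
  r I J := ∃ z : ℤ, I.1 = ({z} : Set ℤ) + J.1
  iseqv := by
    refine ⟨fun I => ⟨0, by simp⟩, ?_, ?_⟩
    · rintro I J ⟨z, hz⟩
      refine ⟨-z, ?_⟩
      rw [hz, ← add_assoc, Set.singleton_add_singleton]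
      simp
    · rintro I J K ⟨z, hz⟩ ⟨w, hw⟩
      refine ⟨z + w, ?_⟩
      rw [hz, hw, ← add_assoc, Set.singleton_add_singleton]
  add' := by
    rintro I J K L ⟨z, hz⟩ ⟨w, hw⟩
    refine ⟨z + w, ?_⟩
    rw [coe_add_ideal, coe_add_ideal, hz, hw, add_add_add_comm, Set.singleton_add_singleton]

/-- The ideal class monoid of `S`: ideals modulo translation. -/
abbrev IdealClassMonoid (S : AddSubmonoid ℕ) : Type := (translationCon S).Quotient

/-- Divisibility in the ideal class monoid: `a ≼ b` iff `b = a + c` for some `c`. -/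
def Divides {S : AddSubmonoid ℕ} (a b : IdealClassMonoid S) : Prop := ∃ c, b = a + c

/-! ### Normalised representatives -/

/-- Ideals with minimum `0`, as subsets of `ℕ`. -/
def Norm (S : AddSubmonoid ℕ) : Type :=
  {J : Set ℕ // 0 ∈ J ∧ ∀ s ∈ S, ∀ j ∈ J, s + j ∈ J}

/-- The copy of a set of naturals inside `ℤ`. -/
def up (J : Set ℕ) : Set ℤ := (fun n : ℕ => (n : ℤ)) '' J

theorem up_add (I J : Set ℕ) : up (I + J) = up I + up J := by
  unfold up
  exact Set.image_add (Nat.castAddMonoidHom ℤ)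

theorem up_injective : Function.Injective up :=
  Set.image_injective.mpr (fun a b h => by simpa using h)

theorem exists_conductor {S : AddSubmonoid ℕ} (hS : IsNumericalSemigroup S) :
    ∃ c : ℕ, ∀ n, c ≤ n → n ∈ S := by
  obtain ⟨b, hb⟩ := hS.bddAbove
  refine ⟨b + 1, fun n hn => ?_⟩
  by_contra h
  have := hb (show n ∈ ((S : Set ℕ)ᶜ) from h)
  omega

theorem isIdeal_up {S : AddSubmonoid ℕ} (hS : IsNumericalSemigroup S) {J : Set ℕ}
    (h0 : 0 ∈ J) (hJ : ∀ s ∈ S, ∀ j ∈ J, s + j ∈ J) : IsIdeal S (up J) := by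
  obtain ⟨c, hc⟩ := exists_conductor hS
  refine ⟨⟨0, 0, h0, by simp⟩, ?_, c, hc c le_rfl, ?_⟩
  · rintro _ ⟨_, ⟨s, hs, rfl⟩, _, ⟨j, hj, rfl⟩, rfl⟩
    exact ⟨s + j, hJ s hs j hj, by simp⟩
  · rintro _ ⟨_, rfl, _, ⟨j, hj, rfl⟩, rfl⟩
    exact ⟨c + j, hc _ (by omega), by simp⟩

/-- A normalised ideal as an ideal. -/
def toIdeal {S : AddSubmonoid ℕ} (hS : IsNumericalSemigroup S) (J : Norm S) :
    IdealMonoid S := ⟨up J.1, isIdeal_up hS J.2.1 J.2.2⟩

/-- The class of a normalised ideal. -/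
def cls {S : AddSubmonoid ℕ} (hS : IsNumericalSemigroup S) (J : Norm S) :
    IdealClassMonoid S :=
  (translationCon S).mk' (toIdeal hS J)

theorem mk_eq {S : AddSubmonoid ℕ} (E F : IdealMonoid S) :
    (translationCon S).mk' E = (translationCon S).mk' F ↔
      ∃ z : ℤ, E.1 = ({z} : Set ℤ) + F.1 :=
  (translationCon S).eq

theorem norm_unique {I J : Set ℕ} (hI : 0 ∈ I) (hJ : 0 ∈ J) {z : ℤ}
    (h : up I = ({z} : Set ℤ) + up J) : I = J := by
  have hz : z = 0 := by
    have h1 : z ∈ up I := by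
      rw [h]
      exact ⟨z, rfl, 0, ⟨0, hJ, by simp⟩, by simp⟩
    have h2 : (0 : ℤ) ∈ ({z} : Set ℤ) + up J := by
      rw [← h]
      exact ⟨0, hI, by simp⟩
    obtain ⟨n, -, hn⟩ := h1
    obtain ⟨a, ha, b, ⟨m, -, hm⟩, hab⟩ := h2
    simp only [Set.mem_singleton_iff] at ha
    simp only at hn hm hab
    subst ha
    omega
  subst hz
  have h3 : up I = up J := by simpa using h
  exact up_injective h3

theorem cls_injective {S : AddSubmonoid ℕ} (hS : IsNumericalSemigroup S) :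
    Function.Injective (cls hS) := by
  intro I J h
  obtain ⟨z, hz⟩ := (mk_eq _ _).mp h
  exact Subtype.ext (norm_unique I.2.1 J.2.1 hz)

theorem cls_surjective {S : AddSubmonoid ℕ} (hS : IsNumericalSemigroup S) :
    Function.Surjective (cls hS) := by
  intro a
  induction a using AddCon.induction_on with
  | H E =>
    obtain ⟨E, hE0, hE1, s, hs, hE2⟩ := E
    -- the minimum of `E`
    have hbd : ∀ e ∈ E, -(s : ℤ) ≤ e := by
      intro e he
      obtain ⟨n, -, hn⟩ := hE2 ⟨(s : ℤ), rfl, e, he, rfl⟩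
      simp only at hn
      omega
    obtain ⟨z, hzE, hz⟩ : ∃ z ∈ E, ∀ e ∈ E, z ≤ e := by
      obtain ⟨z, hz1, hz2⟩ := Int.exists_least_of_bdd (P := fun z => z ∈ E)
        ⟨-(s : ℤ), hbd⟩ hE0
      exact ⟨z, hz1, hz2⟩
    let J : Set ℕ := {n | z + (n : ℤ) ∈ E}
    have h0 : 0 ∈ J := by simpa [J] using hzE
    have hJ : ∀ s ∈ S, ∀ j ∈ J, s + j ∈ J := by
      intro t ht j hj
      have : (t : ℤ) + (z + (j : ℤ)) ∈ E := hE1 ⟨(t : ℤ), ⟨t, ht, rfl⟩, _, hj, rfl⟩
      have h2 : z + ((t + j : ℕ) : ℤ) = (t : ℤ) + (z + (j : ℤ)) := by push_cast; ring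
      show z + ((t + j : ℕ) : ℤ) ∈ E
      rw [h2]
      exact this
    refine ⟨⟨J, h0, hJ⟩, ?_⟩
    refine (mk_eq _ _).mpr ⟨-z, ?_⟩
    ext x
    constructor
    · rintro ⟨n, hn, rfl⟩
      exact ⟨-z, rfl, z + n, hn, by simp⟩
    · rintro ⟨_, rfl, e, he, rfl⟩
      have h1 := hz e he
      refine ⟨(e - z).toNat, ?_, ?_⟩
      · show z + (((e - z).toNat : ℕ) : ℤ) ∈ E
        rw [Int.toNat_of_nonneg (by omega)]
        simpa using he
      · simp only
        rw [Int.toNat_of_nonneg (by omega)]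
        ring

/-- Divisibility of normalised ideals. -/
def NDiv {S : AddSubmonoid ℕ} (I J : Norm S) : Prop := ∃ K : Norm S, J.1 = I.1 + K.1

theorem divides_cls {S : AddSubmonoid ℕ} (hS : IsNumericalSemigroup S) (I J : Norm S) :
    Divides (cls hS I) (cls hS J) ↔ NDiv I J := by
  constructor
  · rintro ⟨c, hc⟩
    obtain ⟨K, rfl⟩ := cls_surjective hS c
    refine ⟨K, ?_⟩
    have h1 : cls hS I + cls hS K = (translationCon S).mk' (toIdeal hS I + toIdeal hS K) :=
      rfl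
    rw [h1] at hc
    obtain ⟨z, hz⟩ := (mk_eq _ _).mp hc
    have h2 : (toIdeal hS I + toIdeal hS K).1 = up (I.1 + K.1) := (up_add _ _).symm
    rw [h2] at hz
    exact norm_unique J.2.1 (by exact ⟨0, I.2.1, 0, K.2.1, by simp⟩) hz
  · rintro ⟨K, hK⟩
    refine ⟨cls hS K, ?_⟩
    have h1 : cls hS I + cls hS K = (translationCon S).mk' (toIdeal hS I + toIdeal hS K) :=
      rfl
    rw [h1]
    refine (mk_eq _ _).mpr ⟨0, ?_⟩
    have h2 : (toIdeal hS I + toIdeal hS K).1 = up (I.1 + K.1) := (up_add _ _).symm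
    have h3 : (toIdeal hS J).1 = up J.1 := rfl
    rw [h2, h3, hK]
    simp

/-! ### Chains and the number of gaps -/

/-- There is a chain `a ≺ a₁ ≺ ... ≺ a_k` (for the relation `R`) of length `k` above `a`. -/
def HasChain {X : Type} (R : X → X → Prop) : ℕ → X → Prop
  | 0, _ => True
  | k + 1, a => ∃ b, R a b ∧ a ≠ b ∧ HasChain R k b

theorem hasChain_iso {X Y : Type} {R : X → X → Prop} {R' : Y → Y → Prop} (e : X ≃ Y)
    (he : ∀ a b, R a b ↔ R' (e a) (e b)) (k : ℕ) (a : X) :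
    HasChain R k a ↔ HasChain R' k (e a) := by
  induction k generalizing a with
  | zero => simp [HasChain]
  | succ k ih =>
    constructor
    · rintro ⟨b, h1, h2, h3⟩
      exact ⟨e b, (he a b).mp h1, fun h => h2 (e.injective h), (ih b).mp h3⟩
    · rintro ⟨b, h1, h2, h3⟩
      refine ⟨e.symm b, (he _ _).mpr (by simpa using h1), ?_, (ih _).mpr (by simpa using h3)⟩
      rintro rfl
      exact h2 (by simp)

/-- The number of gaps of a normalised ideal. -/
noncomputable def gaps {S : AddSubmonoid ℕ} (J : Norm S) : ℕ := (J.1ᶜ).ncard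

theorem subset_norm {S : AddSubmonoid ℕ} {J : Set ℕ} (h0 : 0 ∈ J)
    (hJ : ∀ s ∈ S, ∀ j ∈ J, s + j ∈ J) : (S : Set ℕ) ⊆ J := by
  intro s hs
  simpa using hJ s hs 0 h0

theorem compl_finite {S : AddSubmonoid ℕ} (hS : IsNumericalSemigroup S) {J : Set ℕ}
    (h0 : 0 ∈ J) (hJ : ∀ s ∈ S, ∀ j ∈ J, s + j ∈ J) : (Jᶜ).Finite :=
  hS.subset (Set.compl_subset_compl.mpr (subset_norm h0 hJ))

theorem gaps_lt_of_ndiv {S : AddSubmonoid ℕ} (hS : IsNumericalSemigroup S) {I J : Norm S}
    (h : NDiv I J) (hne : I ≠ J) : gaps J < gaps I := by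
  obtain ⟨K, hK⟩ := h
  have hsub : I.1 ⊆ J.1 := by
    intro x hx
    rw [hK]
    exact ⟨x, hx, 0, K.2.1, by simp⟩
  have hss : J.1ᶜ ⊂ I.1ᶜ := by
    refine ⟨Set.compl_subset_compl.mpr hsub, fun h => hne ?_⟩
    exact Subtype.ext (Set.Subset.antisymm hsub (Set.compl_subset_compl.mp h))
  exact Set.ncard_lt_ncard hss (compl_finite hS I.2.1 I.2.2)

theorem exists_step {S : AddSubmonoid ℕ} (hS : IsNumericalSemigroup S) (I : Norm S)
    (hpos : 0 < gaps I) : ∃ J : Norm S, NDiv I J ∧ I ≠ J ∧ gaps J = gaps I - 1 := by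
  have hfin := compl_finite hS I.2.1 I.2.2
  have hne : (I.1ᶜ).Nonempty := (Set.ncard_pos hfin).mp hpos
  obtain ⟨F, hF, hmax⟩ := Set.exists_max_image (I.1ᶜ) (fun n => n) hfin hne
  have hbig : ∀ n, F < n → n ∈ I.1 := by
    intro n hn
    by_contra h
    have := hmax n h
    omega
  have hJ0 : (0 : ℕ) ∈ insert F I.1 := Or.inr I.2.1
  have hJ1 : ∀ s ∈ S, ∀ j ∈ insert F I.1, s + j ∈ insert F I.1 := by
    rintro s hs j (rfl | hj)
    · rcases Nat.eq_zero_or_pos s with rfl | hpos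
      · left; simp
      · right; exact hbig _ (by omega)
    · right; exact I.2.2 s hs j hj
  let K : Set ℕ := {n | n ∈ S ∨ F ≤ n}
  have hK0 : (0 : ℕ) ∈ K := Or.inl S.zero_mem
  have hK1 : ∀ s ∈ S, ∀ j ∈ K, s + j ∈ K := by
    rintro s hs j (hj | hj)
    · left; exact S.add_mem hs hj
    · right; omega
  refine ⟨⟨insert F I.1, hJ0, hJ1⟩, ⟨⟨K, hK0, hK1⟩, ?_⟩, ?_, ?_⟩
  · ext x
    constructor
    · rintro (rfl | hx)
      · exact ⟨0, I.2.1, x, Or.inr le_rfl, by simp⟩
      · exact ⟨x, hx, 0, hK0, by simp⟩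
    · rintro ⟨i, hi, k, (hk | hk), rfl⟩
      · right
        simp only
        rw [add_comm]
        exact I.2.2 k hk i hi
      · simp only
        rcases Nat.lt_or_ge F (i + k) with h | h
        · right; exact hbig _ h
        · left; omega
  · intro h
    apply hF
    rw [h]
    exact Set.mem_insert _ _
  · unfold gaps
    simp only
    have h1 : (insert F I.1)ᶜ = I.1ᶜ \ {F} := by
      ext x
      simp only [Set.mem_compl_iff, Set.mem_insert_iff, Set.mem_diff, Set.mem_singleton_iff]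
      tauto
    rw [h1, Set.ncard_diff_singleton_of_mem hF]

theorem hasChain_iff {S : AddSubmonoid ℕ} (hS : IsNumericalSemigroup S) (k : ℕ)
    (J : Norm S) : HasChain NDiv k J ↔ k ≤ gaps J := by
  induction k generalizing J with
  | zero => simp [HasChain]
  | succ k ih =>
    constructor
    · rintro ⟨I, h1, h2, h3⟩
      have := gaps_lt_of_ndiv hS h1 h2
      have := (ih I).mp h3
      omega
    · intro h
      obtain ⟨I, h1, h2, h3⟩ := exists_step hS J (by omega)
      exact ⟨I, h1, h2, (ih I).mpr (by omega)⟩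

/-- Divisibility is a partial order on the ideal class monoid (not needed for the main
theorem; recorded to show that the order considered is the intended one). -/
theorem divides_partialOrder {S : AddSubmonoid ℕ} (hS : IsNumericalSemigroup S) :
    (∀ a : IdealClassMonoid S, Divides a a) ∧
    (∀ a b c : IdealClassMonoid S, Divides a b → Divides b c → Divides a c) ∧
    (∀ a b : IdealClassMonoid S, Divides a b → Divides b a → a = b) := by
  refine ⟨fun a => ⟨0, (add_zero a).symm⟩, ?_, ?_⟩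
  · rintro a b c ⟨d, rfl⟩ ⟨e, rfl⟩
    exact ⟨d + e, add_assoc a d e⟩
  · intro a b hab hba
    obtain ⟨I, rfl⟩ := cls_surjective hS a
    obtain ⟨J, rfl⟩ := cls_surjective hS b
    rw [divides_cls] at hab hba
    by_contra hne
    have hIJ : I ≠ J := fun h => hne (by rw [h])
    have h1 := gaps_lt_of_ndiv hS hab hIJ
    have h2 := gaps_lt_of_ndiv hS hba (Ne.symm hIJ)
    omega

/-- The normalised ideals of `S` with exactly `r` gaps. -/
def level (S : AddSubmonoid ℕ) (r : ℕ) : Set (Set ℕ) :=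
  {J | (0 ∈ J ∧ ∀ s ∈ S, ∀ j ∈ J, s + j ∈ J) ∧ (Jᶜ).ncard = r}

theorem level_finite {S : AddSubmonoid ℕ} (hS : IsNumericalSemigroup S) (r : ℕ) :
    (level S r).Finite := by
  have h : (compl '' (Set.powerset ((S : Set ℕ)ᶜ))).Finite := (Set.Finite.powerset hS).image _
  refine h.subset ?_
  rintro J ⟨⟨h0, hJ⟩, -⟩
  exact ⟨Jᶜ, Set.compl_subset_compl.mpr (subset_norm h0 hJ), compl_compl J⟩

theorem card_level_eq {S : AddSubmonoid ℕ} (r : ℕ) :
    (level S r).ncard = Nat.card {J : Norm S // gaps J = r} := by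
  have e : {J : Norm S // gaps J = r} ≃ level S r :=
    { toFun := fun J => ⟨J.1.1, J.1.2, J.2⟩
      invFun := fun J => ⟨⟨J.1, J.2.1⟩, J.2.2⟩
      left_inv := fun _ => rfl
      right_inv := fun _ => rfl }
  rw [Nat.card_congr e]
  rfl

/-- The posets determine the level sizes. -/
theorem level_ncard_eq {S₁ S₂ : AddSubmonoid ℕ} (h₁ : IsNumericalSemigroup S₁)
    (h₂ : IsNumericalSemigroup S₂) (e : IdealClassMonoid S₁ ≃ IdealClassMonoid S₂)
    (he : ∀ a b, Divides a b ↔ Divides (e a) (e b)) (r : ℕ) :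
    (level S₁ r).ncard = (level S₂ r).ncard := by
  let c₁ : Norm S₁ ≃ IdealClassMonoid S₁ :=
    Equiv.ofBijective (cls h₁) ⟨cls_injective h₁, cls_surjective h₁⟩
  let c₂ : Norm S₂ ≃ IdealClassMonoid S₂ :=
    Equiv.ofBijective (cls h₂) ⟨cls_injective h₂, cls_surjective h₂⟩
  let f : Norm S₁ ≃ Norm S₂ := (c₁.trans e).trans c₂.symm
  have hf : ∀ a b : Norm S₁, NDiv a b ↔ NDiv (f a) (f b) := by
    intro a b
    rw [← divides_cls h₁, he, ← divides_cls h₂]
    have h3 : ∀ x, cls h₂ (f x) = e (cls h₁ x) := fun x => c₂.apply_symm_apply _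
    rw [h3, h3]
  have hg : ∀ a : Norm S₁, gaps (f a) = gaps a := by
    intro a
    apply le_antisymm
    · rw [← hasChain_iff h₁, hasChain_iso f hf, hasChain_iff h₂]
    · rw [← hasChain_iff h₂, ← hasChain_iso f hf, hasChain_iff h₁]
  rw [card_level_eq, card_level_eq]
  exact Nat.card_congr (f.subtypeEquiv (fun a => by rw [hg]))

/-- The number of gaps of a normalised ideal of `S` with a gap `g` is at least the number
of elements of `S` up to `g`. -/
theorem ncard_le_gaps {S : AddSubmonoid ℕ} {J : Set ℕ} (hfin : (Jᶜ).Finite)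
    (hJ : ∀ s ∈ S, ∀ j ∈ J, s + j ∈ J) {g : ℕ} (hg : g ∉ J) :
    ({t | t ∈ S ∧ t ≤ g} : Set ℕ).ncard ≤ (Jᶜ).ncard := by
  apply Set.ncard_le_ncard_of_injOn (fun t => g - t) _ _ hfin
  · rintro t ⟨ht, htg⟩ hmem
    apply hg
    have := hJ t ht _ hmem
    simpa [Nat.add_sub_cancel' htg] using this
  · rintro a ⟨-, ha⟩ b ⟨-, hb⟩ hab
    simp only at hab
    omega

theorem level_lt {S₁ S₂ : AddSubmonoid ℕ} (h₁ : IsNumericalSemigroup S₁)
    (h₂ : IsNumericalSemigroup S₂) {s : ℕ} (hs₁ : s ∈ S₁) (hs₂ : s ∉ S₂)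
    (hlt : ∀ t < s, (t ∈ S₁ ↔ t ∈ S₂)) :
    ∃ r, (level S₁ r).ncard < (level S₂ r).ncard := by
  let A : Set ℕ := {t | t ∈ S₂ ∧ t ≤ s}
  have hAfin : A.Finite := (Set.finite_Iic s).subset (fun t ht => ht.2)
  refine ⟨A.ncard, Set.ncard_lt_ncard ?_ (level_finite h₂ _)⟩
  -- the special ideal
  let G : Set ℕ := {n | ∃ t ∈ S₂, t ≤ s ∧ n = s - t}
  have hG : G.ncard = A.ncard := by
    have h1 : G = (fun t => s - t) '' A := by
      ext n
      constructor
      · rintro ⟨t, ht, hts, rfl⟩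
        exact ⟨t, ⟨ht, hts⟩, rfl⟩
      · rintro ⟨t, ⟨ht, hts⟩, rfl⟩
        exact ⟨t, ht, hts, rfl⟩
    rw [h1]
    apply Set.InjOn.ncard_image
    rintro a ⟨-, ha⟩ b ⟨-, hb⟩ hab
    simp only at hab
    omega
  have hmem : Gᶜ ∈ level S₂ A.ncard := by
    refine ⟨⟨?_, ?_⟩, by rw [compl_compl, hG]⟩
    · rintro ⟨t, ht, hts, h0⟩
      have : t = s := by omega
      subst this
      exact hs₂ ht
    · rintro u hu j hj ⟨t, ht, hts, h0⟩
      exact hj ⟨u + t, S₂.add_mem hu ht, by omega, by omega⟩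
  have hnot : Gᶜ ∉ level S₁ A.ncard := by
    rintro ⟨⟨h0, hJ⟩, -⟩
    have h1 : s ∈ Gᶜ := subset_norm h0 hJ hs₁
    exact h1 ⟨0, S₂.zero_mem, by omega, by omega⟩
  refine ⟨?_, fun h => hnot (h hmem)⟩
  rintro J ⟨⟨h0, hJ⟩, hcard⟩
  refine ⟨⟨h0, ?_⟩, hcard⟩
  have hfin := compl_finite h₁ h0 hJ
  -- every gap of `J` is less than `s`
  have hgap : ∀ g, g ∉ J → g < s := by
    intro g hg
    by_contra hge
    push Not at hge
    have h1 := ncard_le_gaps hfin hJ hg
    rw [hcard] at h1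
    have h2 : A ⊂ {t | t ∈ S₁ ∧ t ≤ g} := by
      refine ⟨?_, fun h => ?_⟩
      · rintro t ⟨ht, hts⟩
        rcases Nat.lt_or_ge t s with h | h
        · exact ⟨(hlt t h).mpr ht, by omega⟩
        · have : t = s := by omega
          subst this
          exact absurd ht hs₂
      · exact hs₂ (h ⟨hs₁, hge⟩).1
    have h3 := Set.ncard_lt_ncard h2 ((Set.finite_Iic g).subset (fun t ht => ht.2))
    omega
  intro t ht j hj
  rcases Nat.lt_or_ge t s with h | h
  · exact hJ t ((hlt t h).mpr ht) j hj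
  · by_contra hcon
    have := hgap _ hcon
    omega

/-- **Main theorem.** If the ideal class monoids of two numerical semigroups, ordered by
divisibility, are isomorphic as posets, then the numerical semigroups are equal. -/
theorem result (S₁ S₂ : AddSubmonoid ℕ) (h₁ : IsNumericalSemigroup S₁)
    (h₂ : IsNumericalSemigroup S₂)
    (h : ∃ e : IdealClassMonoid S₁ ≃ IdealClassMonoid S₂,
      ∀ a b, Divides a b ↔ Divides (e a) (e b)) : S₁ = S₂ := by
  obtain ⟨e, he⟩ := h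
  by_contra hne
  have hex : ∃ s, ¬ (s ∈ S₁ ↔ s ∈ S₂) := by
    by_contra hcon
    push Not at hcon
    exact hne (AddSubmonoid.ext hcon)
  classical
  have hspec := Nat.find_spec hex
  have hmin : ∀ t < Nat.find hex, (t ∈ S₁ ↔ t ∈ S₂) := fun t ht => by
    have := Nat.find_min hex ht
    tauto
  by_cases hs : Nat.find hex ∈ S₁
  · have hs' : Nat.find hex ∉ S₂ := by tauto
    obtain ⟨r, hr⟩ := level_lt h₁ h₂ hs hs' hmin
    have := level_ncard_eq h₁ h₂ e he r
    omega
  · have hs' : Nat.find hex ∈ S₂ := by tauto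
    obtain ⟨r, hr⟩ := level_lt h₂ h₁ hs' hs (fun t ht => (hmin t ht).symm)
    have := level_ncard_eq h₁ h₂ e he r
    omega

end Pool.Agent.Results.MP_6e7624_al.PosetDetermines
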